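import Mathlib

/-!
# A metrizability criterion for compact spaces

`K` compact Hausdorff, `lam : K → K → K → [0,1]` continuous at all `(a, b, z)` with `a ≠ b`,
`lam a b a = 0` and `lam a b b = 1` for `a ≠ b`. Then `K` is metrizable.
-/

set_option autoImplicit false

namespace Pool.Agent.R165.Comp

open Topology Set Filter

/-- Terms describing the elements of the closure under countably many operations. -/
inductive Tm : Type
  | const (q : ℚ) : Tm
  | add (s t : Tm) : Tm
  | mul (s t : Tm) : Tm
  | neg (s : Tm) : Tm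
  | lam (s t : Tm) : Tm
  | tt (s t u : Tm) : Tm
  | pp (s : Tm) : Tm
  | qq (s : Tm) : Tm
deriving Countable

section

variable {K : Type*} [TopologicalSpace K]

/-- Evaluation of a term: a point and a function. -/
def ev (x0 : K) (L : K → K → C(K, ℝ)) (T : K → K → C(K, ℝ) → C(K, ℝ))
    (P Q : C(K, ℝ) → K) : Tm → K × C(K, ℝ)
  | .const q => (x0, ContinuousMap.const K (q : ℝ))
  | .add s t => (x0, (ev x0 L T P Q s).2 + (ev x0 L T P Q t).2)
  | .mul s t => (x0, (ev x0 L T P Q s).2 * (ev x0 L T P Q t).2)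
  | .neg s => (x0, -(ev x0 L T P Q s).2)
  | .lam s t => (x0, L (ev x0 L T P Q s).1 (ev x0 L T P Q t).1)
  | .tt s t u => (x0, T (ev x0 L T P Q s).1 (ev x0 L T P Q t).1 (ev x0 L T P Q u).2)
  | .pp s => (P (ev x0 L T P Q s).2, 0)
  | .qq s => (Q (ev x0 L T P Q s).2, 0)

theorem close_off [Nonempty K] (L : K → K → C(K, ℝ)) (T : K → K → C(K, ℝ) → C(K, ℝ)) :
    ∃ (D : Set K) (F : Subring C(K, ℝ)), (F : Set C(K, ℝ)).Countable ∧
      (∀ q : ℚ, ContinuousMap.const K (q : ℝ) ∈ F) ∧
      (∀ a ∈ D, ∀ b ∈ D, L a b ∈ F) ∧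
      (∀ a ∈ D, ∀ b ∈ D, ∀ g ∈ F, T a b g ∈ F) ∧
      (∀ f ∈ F, ∀ x, 0 < f x → ∃ d ∈ D, 0 < f d) ∧
      (∀ f ∈ F, ∀ x y, x ≠ y → 0 < f x → 0 < f y →
        ∃ d ∈ D, ∃ d' ∈ D, d ≠ d' ∧ 0 < f d ∧ 0 < f d') := by
  classical
  obtain ⟨x0⟩ := ‹Nonempty K›
  have hP : ∀ f : C(K, ℝ), ∃ p : K, (∃ x, 0 < f x) → 0 < f p := by
    intro f
    by_cases h : ∃ x, 0 < f x
    · obtain ⟨x, hx⟩ := h
      exact ⟨x, fun _ => hx⟩
    · exact ⟨x0, fun h' => absurd h' h⟩
  choose P hP using hP
  have hQ : ∀ f : C(K, ℝ), ∃ p : K, (∃ x, 0 < f x ∧ x ≠ P f) → 0 < f p ∧ p ≠ P f := by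
    intro f
    by_cases h : ∃ x, 0 < f x ∧ x ≠ P f
    · obtain ⟨x, hx⟩ := h
      exact ⟨x, fun _ => hx⟩
    · exact ⟨x0, fun h' => absurd h' h⟩
  choose Q hQ using hQ
  let e := ev x0 L T P Q
  let F : Subring C(K, ℝ) :=
    { carrier := range fun t => (e t).2
      mul_mem' := by
        rintro _ _ ⟨s, rfl⟩ ⟨t, rfl⟩
        exact ⟨.mul s t, rfl⟩
      one_mem' := ⟨.const 1, by
        show ContinuousMap.const K (((1 : ℚ) : ℝ)) = 1
        ext x; simp⟩
      add_mem' := by
        rintro _ _ ⟨s, rfl⟩ ⟨t, rfl⟩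
        exact ⟨.add s t, rfl⟩
      zero_mem' := ⟨.const 0, by
        show ContinuousMap.const K (((0 : ℚ) : ℝ)) = 0
        ext x; simp⟩
      neg_mem' := by
        rintro _ ⟨s, rfl⟩
        exact ⟨.neg s, rfl⟩ }
  have hF : ∀ f, f ∈ F ↔ ∃ t, (e t).2 = f := fun f => Iff.rfl
  refine ⟨range fun t => (e t).1, F, countable_range _, ?_, ?_, ?_, ?_, ?_⟩
  · intro q
    exact ⟨.const q, rfl⟩
  · rintro _ ⟨s, rfl⟩ _ ⟨t, rfl⟩
    exact ⟨.lam s t, rfl⟩
  · rintro _ ⟨s, rfl⟩ _ ⟨t, rfl⟩ _ ⟨u, rfl⟩
    exact ⟨.tt s t u, rfl⟩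
  · rintro _ ⟨s, rfl⟩ x hx
    exact ⟨P (e s).2, ⟨.pp s, rfl⟩, hP _ ⟨x, hx⟩⟩
  · rintro _ ⟨s, rfl⟩ x y hxy hx hy
    have h1 : 0 < (e s).2 (P (e s).2) := hP _ ⟨x, hx⟩
    have h2 : ∃ z, 0 < (e s).2 z ∧ z ≠ P (e s).2 := by
      by_cases h : x = P (e s).2
      · exact ⟨y, hy, fun h' => hxy (h.trans h'.symm)⟩
      · exact ⟨x, hx, h⟩
    have h3 := hQ _ h2
    exact ⟨P (e s).2, ⟨.pp s, rfl⟩, Q (e s).2, ⟨.qq s, rfl⟩, h3.2.symm, h1, h3.1⟩

/-- The finite intersection argument. -/
theorem exists_same (F : Subring C(K, ℝ)) (hq : ∀ q : ℚ, ContinuousMap.const K (q : ℝ) ∈ F)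
    (C : Set K) (hC : IsCompact C) (x : K) (h : ∀ f ∈ F, 0 < f x → ∃ d ∈ C, 0 < f d) :
    ∃ y ∈ C, ∀ f ∈ F, f y = f x := by
  classical
  -- index set: pairs `(f, n)`
  have key : (C ∩ ⋂ i : F × ℕ, {y : K | |i.1.1 y - i.1.1 x| ≤ 1 / ((i.2 : ℝ) + 1)}).Nonempty := by
    apply hC.inter_iInter_nonempty
    · intro i
      exact isClosed_le ((i.1.1.continuous.sub continuous_const).abs) continuous_const
    · intro u
      -- choose `N` bounding all `n`
      set N : ℕ := u.sup (fun i => i.2) with hN
      set ε : ℝ := 1 / ((N : ℝ) + 1) with hε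
      have hε0 : 0 < ε := by positivity
      obtain ⟨c, hc0, hc1⟩ : ∃ c : ℚ, (0 : ℝ) < c ∧ (c : ℝ) < (ε / 2) ^ 2 :=
        exists_rat_btwn (by positivity)
      have hδ : ∃ δ : ℝ, 0 < δ ∧ δ ≤ ε / 2 ∧ (u.card : ℝ) * δ ^ 2 < c := by
        refine ⟨min (ε / 2) (min 1 (c / (u.card + 1))), ?_, min_le_left _ _, ?_⟩
        · have : (0 : ℝ) < c / (u.card + 1) := by positivity
          positivity
        · set δ := min (ε / 2) (min 1 ((c : ℝ) / (u.card + 1)))
          have h1 : δ ≤ 1 := (min_le_right _ _).trans (min_le_left _ _)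
          have h2 : δ ≤ (c : ℝ) / (u.card + 1) := (min_le_right _ _).trans (min_le_right _ _)
          have h3 : 0 < δ := by
            have : (0 : ℝ) < c / (u.card + 1) := by positivity
            positivity
          have h4 : δ ^ 2 ≤ δ := by nlinarith
          have h5 : ((u.card : ℝ) + 1) * δ ≤ c := by
            rw [le_div_iff₀ (by positivity)] at h2
            linarith
          have h6 : (u.card : ℝ) * δ ^ 2 ≤ u.card * δ :=
            mul_le_mul_of_nonneg_left h4 (by positivity)
          nlinarith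
      obtain ⟨δ, hδ0, hδ1, hδ2⟩ := hδ
      have hr : ∀ i : F × ℕ, ∃ q : ℚ, |i.1.1 x - q| < δ := by
        intro i
        obtain ⟨q, hq1, hq2⟩ := exists_rat_btwn (show i.1.1 x - δ < i.1.1 x by linarith)
        exact ⟨q, by rw [abs_lt]; constructor <;> linarith⟩
      choose r hr using hr
      set H : C(K, ℝ) := ContinuousMap.const K (c : ℝ) -
        ∑ i ∈ u, (i.1.1 - ContinuousMap.const K (r i : ℝ)) *
          (i.1.1 - ContinuousMap.const K (r i : ℝ)) with hH
      have hHF : H ∈ F := by
        refine sub_mem (hq c) (sum_mem fun i _ => mul_mem ?_ ?_)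
        · exact sub_mem i.1.2 (hq _)
        · exact sub_mem i.1.2 (hq _)
      have hHe : ∀ y, H y = c - ∑ i ∈ u, (i.1.1 y - r i) * (i.1.1 y - r i) := by
        intro y
        simp [hH]
      have hHx : 0 < H x := by
        rw [hHe]
        have : ∑ i ∈ u, (i.1.1 x - r i) * (i.1.1 x - r i) ≤ ∑ i ∈ u, δ ^ 2 := by
          refine Finset.sum_le_sum fun i _ => ?_
          have := hr i
          rw [abs_lt] at this
          nlinarith
        rw [Finset.sum_const, nsmul_eq_mul] at this
        linarith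
      obtain ⟨d, hd, hHd⟩ := h H hHF hHx
      refine ⟨d, hd, ?_⟩
      simp only [mem_iInter, mem_setOf_eq]
      intro i hi
      rw [hHe] at hHd
      have h1 : (i.1.1 d - r i) * (i.1.1 d - r i) < (ε / 2) ^ 2 := by
        have : (i.1.1 d - r i) * (i.1.1 d - r i) ≤
            ∑ i ∈ u, (i.1.1 d - r i) * (i.1.1 d - r i) :=
          Finset.single_le_sum (f := fun i : F × ℕ => (i.1.1 d - r i) * (i.1.1 d - r i))
            (fun i _ => mul_self_nonneg _) hi
        linarith
      have h2 : |i.1.1 d - r i| < ε / 2 := by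
        apply abs_lt_of_sq_lt_sq _ (by positivity)
        nlinarith
      have h3 : |i.1.1 d - i.1.1 x| < ε := by
        have h4 := hr i
        rw [abs_lt] at h2 h4 ⊢
        constructor <;> linarith
      refine h3.le.trans ?_
      have h5 : i.2 ≤ N := Finset.le_sup (f := fun i : F × ℕ => i.2) hi
      have h6 : (i.2 : ℝ) ≤ N := by exact_mod_cast h5
      rw [hε]
      exact one_div_le_one_div_of_le (by positivity) (by linarith)
  obtain ⟨y, hyC, hy⟩ := key
  refine ⟨y, hyC, fun f hf => ?_⟩
  simp only [mem_iInter, mem_setOf_eq] at hy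
  by_contra hne
  have hpos : 0 < |f y - f x| := abs_pos.mpr (sub_ne_zero.mpr hne)
  obtain ⟨n, hn⟩ := exists_nat_one_div_lt hpos
  exact absurd (hy (⟨f, hf⟩, n)) (not_le.mpr hn)

end

section

variable {K : Type*} [TopologicalSpace K] [CompactSpace K] [T2Space K]

theorem metrizable_of_countable_sep (F : Set C(K, ℝ)) (hF : F.Countable)
    (hs : ∀ a b, a ≠ b → ∃ f ∈ F, f a ≠ f b) : TopologicalSpace.MetrizableSpace K := by
  haveI : Countable F := hF.to_subtype
  let e : K → F → ℝ := fun x f => f.1 x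
  have hc : Continuous e := continuous_pi fun f => f.1.continuous
  have hi : Function.Injective e := by
    intro a b hab
    by_contra hne
    obtain ⟨f, hf, hfab⟩ := hs a b hne
    exact hfab (congrFun hab ⟨f, hf⟩)
  exact (hc.isClosedEmbedding hi).isEmbedding.metrizableSpace

theorem metr (lam : K → K → K → ℝ) (hb : ∀ a b z, 0 ≤ lam a b z ∧ lam a b z ≤ 1)
    (hc : ∀ a b z, a ≠ b → ContinuousAt (fun p : K × K × K => lam p.1 p.2.1 p.2.2) (a, b, z))
    (h0 : ∀ a b, a ≠ b → lam a b a = 0) (h1 : ∀ a b, a ≠ b → lam a b b = 1) :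
    TopologicalSpace.MetrizableSpace K := by
  classical
  rcases isEmpty_or_nonempty K with hK | hK
  · exact metrizable_of_countable_sep ∅ countable_empty (fun a => hK.elim a)
  -- continuity in the third variable
  have hc3 : ∀ a b, a ≠ b → Continuous fun z => lam a b z := by
    intro a b hab
    rw [continuous_iff_continuousAt]
    intro z
    exact (hc a b z hab).comp (f := fun z => (a, b, z)) (by fun_prop)
  have hc2 : ∀ a b z, a ≠ b → ContinuousAt (fun x => lam a x z) b := by
    intro a b z hab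
    exact (hc a b z hab).comp (f := fun x => (a, x, z)) (by fun_prop)
  have hc1 : ∀ a b z, a ≠ b → ContinuousAt (fun x => lam x b z) a := by
    intro a b z hab
    exact (hc a b z hab).comp (f := fun x => (x, b, z)) (by fun_prop)
  -- uniformity in the third variable
  have hu : ∀ a b, a ≠ b → ∀ᶠ p : K × K in 𝓝 (a, b), p.1 ≠ p.2 ∧
      ∀ z, |lam p.1 p.2 z - lam a b z| < 1 / 2 := by
    intro a b hab
    have hne : ∀ᶠ p : K × K in 𝓝 (a, b), p.1 ≠ p.2 :=
      (isOpen_ne_fun continuous_fst continuous_snd).mem_nhds hab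
    refine hne.and ?_
    have hz : ∀ z ∈ (univ : Set K), ∀ᶠ q : (K × K) × K in 𝓝 (a, b) ×ˢ 𝓝 z,
        |lam q.1.1 q.1.2 q.2 - lam a b q.2| < 1 / 2 := by
      intro z _
      rw [← nhds_prod_eq]
      have e1 : ContinuousAt (fun q : (K × K) × K => lam q.1.1 q.1.2 q.2) ((a, b), z) := by
        have := (hc a b z hab)
        exact ContinuousAt.comp (g := fun p : K × K × K => lam p.1 p.2.1 p.2.2)
          (f := fun q : (K × K) × K => (q.1.1, q.1.2, q.2)) (x := ((a, b), z)) this
          (by fun_prop)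
      have e2 : ContinuousAt (fun q : (K × K) × K => lam a b q.2) ((a, b), z) :=
        ((hc3 a b hab).comp continuous_snd).continuousAt
      have e3 := (e1.sub e2).abs
      have e4 : (fun q : (K × K) × K => |lam q.1.1 q.1.2 q.2 - lam a b q.2|) ((a, b), z)
          < 1 / 2 := by simp
      exact e3.eventually (gt_mem_nhds e4) |>.mono fun q hq => hq
    have := isCompact_univ.eventually_forall_of_forall_eventually
      (x₀ := (a, b)) (P := fun p z => |lam p.1 p.2 z - lam a b z| < 1 / 2) (by
        intro z hz'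
        rw [nhds_prod_eq]
        exact hz z hz')
    exact this.mono fun p hp z => hp z (mem_univ z)
  let L : K → K → C(K, ℝ) := fun a b =>
    if h : a ≠ b then ⟨fun z => lam a b z, hc3 a b h⟩ else 0
  have hTc : ∀ (a y : K) (g : C(K, ℝ)), Continuous fun x => (g x - g a) * (if x = a then 0 else lam a x y) := by
    intro a y g
    rw [continuous_iff_continuousAt]
    intro x
    by_cases hx : x = a
    · subst hx
      have h2 : Tendsto (fun x' => (g x' - g x) * (if x' = x then 0 else lam x x' y)) (𝓝 x) (𝓝 0) := by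
        have h3 : Tendsto (fun x' => |g x' - g x|) (𝓝 x) (𝓝 0) := by
          have : Continuous fun x' => |g x' - g x| := by fun_prop
          have := this.tendsto x
          simpa using this
        rw [tendsto_zero_iff_abs_tendsto_zero]
        refine squeeze_zero (fun _ => abs_nonneg _) (fun x' => ?_) h3
        show |(g x' - g x) * (if x' = x then 0 else lam x x' y)| ≤ |g x' - g x|
        rw [abs_mul]
        have h4 : |(if x' = x then 0 else lam x x' y)| ≤ 1 := by
          split_ifs
          · simp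
          · rw [abs_of_nonneg (hb _ _ _).1]; exact (hb _ _ _).2
        calc |g x' - g x| * |(if x' = x then 0 else lam x x' y)| ≤ |g x' - g x| * 1 :=
              mul_le_mul_of_nonneg_left h4 (abs_nonneg _)
          _ = _ := mul_one _
      unfold ContinuousAt
      simpa using h2
    · have h2 : (fun x => (g x - g a) * (if x = a then 0 else lam a x y)) =ᶠ[𝓝 x]
          fun x => (g x - g a) * lam a x y := by
        have : ∀ᶠ x' in 𝓝 x, x' ≠ a := (isOpen_ne).mem_nhds hx
        filter_upwards [this] with x' hx'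
        simp [hx']
      refine ContinuousAt.congr ?_ h2.symm
      exact ((g.continuous.sub continuous_const).continuousAt).mul (hc2 a x y (Ne.symm hx))
  let T : K → K → C(K, ℝ) → C(K, ℝ) := fun a y g => ⟨_, hTc a y g⟩
  obtain ⟨D, F, hFc, hFq, hFL, hFT, hp, hpq⟩ := close_off L T
  -- (i)
  have hsep : ∀ a ∈ closure D, ∀ b ∈ closure D, a ≠ b → ∃ f ∈ F, f a ≠ f b := by
    intro a ha b hb' hab
    have hcl : ((a, b) : K × K) ∈ closure (D ×ˢ D) := by
      rw [closure_prod_eq]; exact ⟨ha, hb'⟩
    rw [mem_closure_iff_nhds] at hcl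
    obtain ⟨⟨a', b'⟩, ⟨hne, hz⟩, ha', hb''⟩ := hcl _ (hu a b hab)
    refine ⟨L a' b', hFL a' ha' b' hb'', ?_⟩
    have hL : ∀ z, L a' b' z = lam a' b' z := by
      intro z
      have hne' : a' ≠ b' := hne
      simp [L, hne']
    rw [hL, hL]
    have e1 := hz a
    have e2 := hz b
    simp only at e1 e2
    rw [h0 a b hab, abs_lt] at e1
    rw [h1 a b hab, abs_lt] at e2
    intro hcon
    linarith [e1.2, e2.1]
  -- the main point: every point is in the closure of `D`
  have hmain : ∀ x, x ∈ closure D := by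
    intro x
    obtain ⟨y, hyD, hy⟩ := exists_same F hFq (closure D) isClosed_closure.isCompact x (by
      intro f hf hfx
      obtain ⟨d, hd, hfd⟩ := hp f hf x hfx
      exact ⟨d, subset_closure hd, hfd⟩)
    by_cases hxy : x = y
    · rw [hxy]; exact hyD
    exfalso
    by_cases hcase : y ∈ closure (D \ {y})
    · -- case 1
      have hone : ∀ a ∈ D \ {y}, lam a x y = 1 := by
        intro a ha
        have hay : a ≠ y := ha.2
        obtain ⟨g, hg, hgay⟩ := hsep a (subset_closure ha.1) y hyD hay
        have hgx : g y = g x := hy g hg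
        have hxa : x ≠ a := by
          rintro rfl
          exact hgay hgx.symm
        have hD : ∀ y' ∈ D, lam a x y' = lam a y y' := by
          intro y' hy'
          have h2 := hy (T a y' g) (hFT a ha.1 y' hy' g hg)
          have h3 : (T a y' g) y = (g y - g a) * lam a y y' := by
            show (g y - g a) * (if y = a then 0 else lam a y y') = _
            rw [if_neg hay.symm]
          have h4 : (T a y' g) x = (g x - g a) * lam a x y' := by
            show (g x - g a) * (if x = a then 0 else lam a x y') = _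
            rw [if_neg hxa]
          rw [h3, h4, hgx] at h2
          have h5 : g x - g a ≠ 0 := by
            intro h6
            apply hgay
            rw [hgx]; linarith
          exact (mul_left_cancel₀ h5 h2).symm
        have hcl : ∀ z ∈ closure D, lam a x z = lam a y z := by
          intro z hz
          exact (isClosed_eq (hc3 a x hxa.symm) (hc3 a y hay)).closure_subset_iff.mpr hD hz
        rw [hcl y hyD, h1 a y hay]
      have hlim : lam y x y = 1 := by
        have h2 : ContinuousAt (fun a => lam a x y) y := hc1 y x y (Ne.symm hxy)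
        have h3 : (𝓝[D \ {y}] y).NeBot := mem_closure_iff_nhdsWithin_neBot.mp hcase
        have h4 : Tendsto (fun a => lam a x y) (𝓝[D \ {y}] y) (𝓝 (lam y x y)) :=
          h2.tendsto.mono_left nhdsWithin_le_nhds
        have h5 : Tendsto (fun a => lam a x y) (𝓝[D \ {y}] y) (𝓝 1) := by
          refine tendsto_const_nhds.congr' ?_
          filter_upwards [self_mem_nhdsWithin] with a ha
          exact (hone a ha).symm
        exact tendsto_nhds_unique h4 h5
      rw [h0 y x (Ne.symm hxy)] at hlim
      exact zero_ne_one hlim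
    · -- case 2
      have hE : closure D ⊆ {y} ∪ closure (D \ {y}) := by
        have : D ⊆ {y} ∪ (D \ {y}) := by
          intro d hd
          by_cases h : d = y
          · exact Or.inl h
          · exact Or.inr ⟨hd, h⟩
        calc closure D ⊆ closure ({y} ∪ (D \ {y})) := closure_mono this
          _ = {y} ∪ closure (D \ {y}) := by rw [closure_union, closure_singleton]
      by_cases hall : ∀ f ∈ F, 0 < f y → ∃ d ∈ closure (D \ {y}), 0 < f d
      · obtain ⟨e, he, hey⟩ := exists_same F hFq (closure (D \ {y}))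
          isClosed_closure.isCompact y hall
        have hne : e ≠ y := by
          rintro rfl
          exact hcase he
        obtain ⟨f, hf, hfe⟩ := hsep e (closure_mono diff_subset he) y hyD hne
        exact hfe (hey f hf)
      · push_neg at hall
        obtain ⟨f, hf, hfy, hfE⟩ := hall
        have hfx : 0 < f x := by rw [← hy f hf]; exact hfy
        obtain ⟨d, hd, d', hd', hdd, h2, h3⟩ := hpq f hf x y hxy hfx hfy
        have h4 : ∀ z ∈ D, 0 < f z → z = y := by
          intro z hz hfz
          rcases hE (subset_closure hz) with h5 | h5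
          · exact h5
          · exact absurd (hfE z h5) (not_le.mpr hfz)
        exact hdd ((h4 d hd h2).trans (h4 d' hd' h3).symm)
  refine metrizable_of_countable_sep (F : Set C(K, ℝ)) hFc fun a b hab => ?_
  exact hsep a (hmain a) b (hmain b) hab

end

end Pool.Agent.R165.Comp
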