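import Mathlib

/-!
# Compensation functions on compact metric spaces

A continuous selection of a positive functional below `μ⁺` with total mass `μ(1)⁺`, built from a
tree of partitions of unity.
-/

set_option autoImplicit false

namespace Pool.Agent.R165.Comp

open Topology Set Filter

section pou

variable {K : Type*} [MetricSpace K] [CompactSpace K]

theorem exists_pou (r : ℝ) (hr : 0 < r) : ∃ (T : Finset K) (φ : K → C(K, ℝ)),
    (∀ c x, 0 ≤ φ c x) ∧ (∑ c ∈ T, φ c = 1) ∧ (∀ c x, φ c x ≠ 0 → dist x c < r) := by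
  classical
  obtain ⟨t, -, htf, htc⟩ := (isCompact_univ (X := K)).finite_cover_balls hr
  set T : Finset K := htf.toFinset with hT
  have hSc : Continuous fun x : K => ∑ c ∈ T, max 0 (r - dist x c) := by fun_prop
  have hS : ∀ x : K, 0 < ∑ c ∈ T, max 0 (r - dist x c) := by
    intro x
    have hx := htc (mem_univ x)
    simp only [mem_iUnion] at hx
    obtain ⟨c, hc, hxc⟩ := hx
    have h1 : 0 < max 0 (r - dist x c) := by
      apply lt_max_of_lt_right
      have : dist x c < r := hxc
      linarith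
    refine lt_of_lt_of_le h1 ?_
    exact Finset.single_le_sum (f := fun c => max 0 (r - dist x c)) (fun _ _ => le_max_left _ _)
      (by rw [hT, Set.Finite.mem_toFinset]; exact hc)
  refine ⟨T, fun c => ⟨fun x => max 0 (r - dist x c) / ∑ c ∈ T, max 0 (r - dist x c), ?_⟩,
    ?_, ?_, ?_⟩
  · exact Continuous.div (by fun_prop) hSc (fun x => (hS x).ne')
  · intro c x
    exact div_nonneg (le_max_left _ _) (hS x).le
  · ext x
    rw [ContinuousMap.sum_apply]
    show ∑ c ∈ T, max 0 (r - dist x c) / ∑ c ∈ T, max 0 (r - dist x c) = 1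
    rw [← Finset.sum_div, div_self (hS x).ne']
  · intro c x h
    by_contra hcon
    apply h
    show max 0 (r - dist x c) / _ = 0
    rw [max_eq_left (by linarith), zero_div]

end pou

section tree

variable {K : Type*} [TopologicalSpace K] [CompactSpace K]
variable (T : ℕ → Finset K) (φ : ℕ → K → C(K, ℝ))

/-- The product function attached to a word. -/
noncomputable def Phi : List K → C(K, ℝ)
  | [] => 1
  | c :: s => Phi s * φ s.length c

/-- The weight of a word. -/
noncomputable def W : List K → WeakDual ℝ C(K, ℝ) → ℝ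
  | [], μ => max (μ 1) 0
  | c :: s, μ => W s μ * max (μ (Phi φ (c :: s))) 0 /
      ∑ c' ∈ T s.length, max (μ (Phi φ (c' :: s))) 0

/-- The partial integral of `f` over the extensions of a word by `n` letters. -/
noncomputable def V (pt : List K → K) : ℕ → List K → C(K, ℝ) → WeakDual ℝ C(K, ℝ) → ℝ
  | 0, s, f, μ => W T φ s μ * f (pt s)
  | n + 1, s, f, μ => ∑ c ∈ T s.length, V pt n (c :: s) f μ

/-- The comparison function. -/
noncomputable def G (pt : List K → K) (f : C(K, ℝ)) (μ : WeakDual ℝ C(K, ℝ)) :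
    ℕ → List K → C(K, ℝ)
  | 0, s => by
      classical
      exact if 0 < μ (Phi φ s) then f (pt s) • Phi φ s else 0
  | n + 1, s => ∑ c ∈ T s.length, G pt f μ n (c :: s)

variable {T φ}

theorem sum_Phi (h1 : ∀ n, ∑ c ∈ T n, φ n c = 1) (s : List K) :
    ∑ c ∈ T s.length, Phi φ (c :: s) = Phi φ s := by
  show ∑ c ∈ T s.length, Phi φ s * φ s.length c = Phi φ s
  rw [← Finset.mul_sum, h1, mul_one]

theorem Phi_nonneg (h0 : ∀ n c x, 0 ≤ φ n c x) (s : List K) (x : K) : 0 ≤ Phi φ s x := by
  induction s with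
  | nil => exact zero_le_one
  | cons c s ih => exact mul_nonneg ih (h0 _ _ _)

theorem W_nonneg (s : List K) (μ : WeakDual ℝ C(K, ℝ)) : 0 ≤ W T φ s μ := by
  induction s with
  | nil => exact le_max_right _ _
  | cons c s ih =>
      exact div_nonneg (mul_nonneg ih (le_max_right _ _))
        (Finset.sum_nonneg fun _ _ => le_max_right _ _)

theorem max_le_sum (h1 : ∀ n, ∑ c ∈ T n, φ n c = 1) (s : List K) (μ : WeakDual ℝ C(K, ℝ)) :
    max (μ (Phi φ s)) 0 ≤ ∑ c' ∈ T s.length, max (μ (Phi φ (c' :: s))) 0 := by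
  apply max_le
  · calc μ (Phi φ s) = ∑ c ∈ T s.length, μ (Phi φ (c :: s)) := by
          rw [← sum_Phi h1 s, map_sum]
      _ ≤ _ := Finset.sum_le_sum fun _ _ => le_max_left _ _
  · exact Finset.sum_nonneg fun _ _ => le_max_right _ _

theorem W_le (h1 : ∀ n, ∑ c ∈ T n, φ n c = 1) (s : List K) (μ : WeakDual ℝ C(K, ℝ)) :
    W T φ s μ ≤ max (μ (Phi φ s)) 0 := by
  induction s with
  | nil => exact le_rfl
  | cons c s ih =>
      show W T φ s μ * max (μ (Phi φ (c :: s))) 0 / _ ≤ _
      have h2 := max_le_sum h1 s μ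
      have h3 : 0 ≤ W T φ s μ := W_nonneg s μ
      rcases h3.eq_or_lt with h4 | h4
      · rw [← h4]; simp
      · have h5 : 0 < ∑ c' ∈ T s.length, max (μ (Phi φ (c' :: s))) 0 := by linarith
        rw [div_le_iff₀ h5, mul_comm]
        exact mul_le_mul_of_nonneg_left (by linarith) (le_max_right _ _)

theorem W_sum (h1 : ∀ n, ∑ c ∈ T n, φ n c = 1) (s : List K) (μ : WeakDual ℝ C(K, ℝ)) :
    ∑ c ∈ T s.length, W T φ (c :: s) μ = W T φ s μ := by
  show ∑ c ∈ T s.length, W T φ s μ * max (μ (Phi φ (c :: s))) 0 /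
    (∑ c' ∈ T s.length, max (μ (Phi φ (c' :: s))) 0) = W T φ s μ
  have h2 := max_le_sum h1 s μ
  have h6 := W_le h1 s μ
  have h3 : 0 ≤ W T φ s μ := W_nonneg s μ
  rcases h3.eq_or_lt with h4 | h4
  · rw [← h4]; simp
  · have h5 : 0 < ∑ c' ∈ T s.length, max (μ (Phi φ (c' :: s))) 0 := by linarith
    rw [← Finset.sum_div, ← Finset.mul_sum, mul_div_assoc, div_self h5.ne', mul_one]

theorem W_cons_le (h1 : ∀ n, ∑ c ∈ T n, φ n c = 1) (c : K) (s : List K)
    (hc : c ∈ T s.length) (μ : WeakDual ℝ C(K, ℝ)) : W T φ (c :: s) μ ≤ W T φ s μ := by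
  rw [← W_sum h1 s μ]
  exact Finset.single_le_sum (f := fun c => W T φ (c :: s) μ) (fun _ _ => W_nonneg _ _) hc

theorem eval_cont (f : C(K, ℝ)) : Continuous fun μ : WeakDual ℝ C(K, ℝ) => μ f :=
  WeakDual.eval_continuous f

/-- words with letters in the right sets -/
def Good (T : ℕ → Finset K) : List K → Prop
  | [] => True
  | c :: s => c ∈ T s.length ∧ Good T s

theorem W_cont (h1 : ∀ n, ∑ c ∈ T n, φ n c = 1) (s : List K) (hs : Good T s) :
    Continuous (W T φ s) := by
  induction s with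
  | nil =>
      show Continuous fun μ : WeakDual ℝ C(K, ℝ) => max (μ 1) 0
      exact (eval_cont 1).max continuous_const
  | cons c s ih =>
      have ih' := ih hs.2
      rw [continuous_iff_continuousAt]
      intro μ0
      have hden : Continuous fun μ : WeakDual ℝ C(K, ℝ) =>
          ∑ c' ∈ T s.length, max (μ (Phi φ (c' :: s))) 0 :=
        continuous_finset_sum _ fun _ _ => (eval_cont _).max continuous_const
      have hden0 : 0 ≤ ∑ c' ∈ T s.length, max (μ0 (Phi φ (c' :: s))) 0 :=
        Finset.sum_nonneg fun _ _ => le_max_right _ _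
      rcases hden0.eq_or_lt with h4 | h4
      · have h5 : W T φ s μ0 = 0 := by
          have h6 := W_le h1 s μ0
          have h7 := max_le_sum h1 s μ0
          have h8 := W_nonneg (T := T) (φ := φ) s μ0
          linarith
        have h6 : W T φ (c :: s) μ0 = 0 := by
          have h7 := W_cons_le h1 c s hs.1 μ0
          have h8 := W_nonneg (T := T) (φ := φ) (c :: s) μ0
          linarith
        unfold ContinuousAt
        rw [h6]
        have h9 : Tendsto (W T φ s) (𝓝 μ0) (𝓝 0) := by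
          have := ih'.tendsto μ0
          rwa [h5] at this
        exact squeeze_zero (fun μ => W_nonneg _ _) (fun μ => W_cons_le h1 c s hs.1 μ) h9
      · show ContinuousAt (fun μ => W T φ s μ * max (μ (Phi φ (c :: s))) 0 /
          ∑ c' ∈ T s.length, max (μ (Phi φ (c' :: s))) 0) μ0
        refine ContinuousAt.div ?_ hden.continuousAt h4.ne'
        exact (ih'.mul ((eval_cont _).max continuous_const)).continuousAt

variable {pt : List K → K}

theorem V_cont (h1 : ∀ n, ∑ c ∈ T n, φ n c = 1) (f : C(K, ℝ)) (n : ℕ) :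
    ∀ s, Good T s → Continuous (V T φ pt n s f) := by
  induction n with
  | zero => intro s hs; exact (W_cont h1 s hs).mul continuous_const
  | succ n ih =>
      intro s hs
      show Continuous fun μ => ∑ c ∈ T s.length, V T φ pt n (c :: s) f μ
      exact continuous_finset_sum _ fun c hc => ih _ ⟨hc, hs⟩

theorem V_add (n : ℕ) (μ : WeakDual ℝ C(K, ℝ)) (f g : C(K, ℝ)) :
    ∀ s, V T φ pt n s (f + g) μ = V T φ pt n s f μ + V T φ pt n s g μ := by
  induction n with
  | zero => intro s; show W T φ s μ * (f (pt s) + g (pt s)) = _; rw [mul_add]; rfl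
  | succ n ih =>
      intro s
      show ∑ c ∈ T s.length, V T φ pt n (c :: s) (f + g) μ = _
      rw [Finset.sum_congr rfl fun c _ => ih (c :: s), Finset.sum_add_distrib]
      rfl

theorem V_smul (n : ℕ) (μ : WeakDual ℝ C(K, ℝ)) (a : ℝ) (f : C(K, ℝ)) :
    ∀ s, V T φ pt n s (a • f) μ = a * V T φ pt n s f μ := by
  induction n with
  | zero =>
      intro s
      show W T φ s μ * (a * f (pt s)) = a * (W T φ s μ * f (pt s))
      ring
  | succ n ih =>
      intro s
      show ∑ c ∈ T s.length, V T φ pt n (c :: s) (a • f) μ = _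
      rw [Finset.sum_congr rfl fun c _ => ih (c :: s), ← Finset.mul_sum]
      rfl

theorem V_one (h1 : ∀ n, ∑ c ∈ T n, φ n c = 1) (n : ℕ) (μ : WeakDual ℝ C(K, ℝ)) :
    ∀ s, V T φ pt n s 1 μ = W T φ s μ := by
  induction n with
  | zero => intro s; show W T φ s μ * 1 = _; rw [mul_one]
  | succ n ih =>
      intro s
      show ∑ c ∈ T s.length, V T φ pt n (c :: s) 1 μ = _
      rw [Finset.sum_congr rfl fun c _ => ih (c :: s), W_sum h1]

theorem V_nonneg (n : ℕ) (μ : WeakDual ℝ C(K, ℝ)) (f : C(K, ℝ)) (hf : ∀ x, 0 ≤ f x) :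
    ∀ s, 0 ≤ V T φ pt n s f μ := by
  induction n with
  | zero => intro s; exact mul_nonneg (W_nonneg _ _) (hf _)
  | succ n ih => intro s; exact Finset.sum_nonneg fun c _ => ih _

theorem V_near (h0 : ∀ n c x, 0 ≤ φ n c x) (h1 : ∀ n, ∑ c ∈ T n, φ n c = 1)
    (hpt : ∀ s, Phi φ s ≠ 0 → Phi φ s (pt s) ≠ 0)
    (μ : WeakDual ℝ C(K, ℝ)) (f : C(K, ℝ)) (ω : ℝ) (c : ℝ) (n : ℕ) :
    ∀ s, (∀ x, Phi φ s x ≠ 0 → |f x - c| ≤ ω) →
      |V T φ pt n s f μ - c * W T φ s μ| ≤ ω * W T φ s μ := by
  induction n with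
  | zero =>
      intro s hs
      show |W T φ s μ * f (pt s) - c * W T φ s μ| ≤ _
      have h3 : 0 ≤ W T φ s μ := W_nonneg s μ
      rcases h3.eq_or_lt with h4 | h4
      · rw [← h4]; simp
      · have h5 : Phi φ s ≠ 0 := by
          intro h6
          have h7 := W_le h1 s μ
          rw [h6, map_zero, max_self] at h7
          linarith
        have h6 := hs _ (hpt s h5)
        have h7 : W T φ s μ * f (pt s) - c * W T φ s μ = (f (pt s) - c) * W T φ s μ := by ring
        rw [h7, abs_mul, abs_of_pos h4]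
        exact mul_le_mul_of_nonneg_right h6 h4.le
  | succ n ih =>
      intro s hs
      show |∑ c' ∈ T s.length, V T φ pt n (c' :: s) f μ - c * W T φ s μ| ≤ _
      rw [← W_sum h1 s μ, Finset.mul_sum, Finset.mul_sum, ← Finset.sum_sub_distrib]
      refine (Finset.abs_sum_le_sum_abs _ _).trans (Finset.sum_le_sum fun c' _ => ih _ ?_)
      intro x hx
      apply hs
      intro h
      apply hx
      show Phi φ s x * _ = 0
      rw [h, zero_mul]

theorem V_cauchy (h0 : ∀ n c x, 0 ≤ φ n c x) (h1 : ∀ n, ∑ c ∈ T n, φ n c = 1)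
    (hpt : ∀ s, Phi φ s ≠ 0 → Phi φ s (pt s) ≠ 0)
    (μ : WeakDual ℝ C(K, ℝ)) (f : C(K, ℝ)) (ω : ℝ) (N : ℕ)
    (hosc : ∀ s, N ≤ s.length → ∀ x y, Phi φ s x ≠ 0 → Phi φ s y ≠ 0 → |f x - f y| ≤ ω)
    (k n : ℕ) : ∀ s : List K, N ≤ s.length + n →
      |V T φ pt (n + k) s f μ - V T φ pt n s f μ| ≤ ω * W T φ s μ := by
  induction n with
  | zero =>
      intro s hs
      show |V T φ pt (0 + k) s f μ - W T φ s μ * f (pt s)| ≤ _
      rw [zero_add, mul_comm (W T φ s μ)]
      by_cases h5 : Phi φ s = 0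
      · have h6 : W T φ s μ = 0 := by
          have h7 := W_le h1 s μ
          rw [h5, map_zero, max_self] at h7
          exact le_antisymm h7 (W_nonneg _ _)
        have h8 := V_near h0 h1 hpt μ f (‖f‖ + |f (pt s)|) (f (pt s)) k s (by
          intro x _
          calc |f x - f (pt s)| ≤ |f x| + |f (pt s)| := abs_sub _ _
            _ ≤ _ := by
                have := f.norm_coe_le_norm x
                rw [Real.norm_eq_abs] at this
                linarith)
        rw [h6] at h8 ⊢
        simpa using h8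
      · exact V_near h0 h1 hpt μ f ω _ k s fun x hx => hosc s (by simpa using hs) x _ hx (hpt s h5)
  | succ n ih =>
      intro s hs
      have e1 : n + 1 + k = (n + k) + 1 := by ring
      rw [e1]
      show |∑ c' ∈ T s.length, V T φ pt (n + k) (c' :: s) f μ -
        ∑ c' ∈ T s.length, V T φ pt n (c' :: s) f μ| ≤ _
      rw [← W_sum h1 s μ, Finset.mul_sum, ← Finset.sum_sub_distrib]
      refine (Finset.abs_sum_le_sum_abs _ _).trans (Finset.sum_le_sum fun c' _ => ih _ ?_)
      rw [List.length_cons]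
      omega

theorem V_le_G (h1 : ∀ n, ∑ c ∈ T n, φ n c = 1)
    (μ : WeakDual ℝ C(K, ℝ)) (f : C(K, ℝ)) (hf : ∀ x, 0 ≤ f x) (n : ℕ) :
    ∀ s, V T φ pt n s f μ ≤ μ (G T φ pt f μ n s) := by
  induction n with
  | zero =>
      intro s
      show W T φ s μ * f (pt s) ≤ μ (if 0 < μ (Phi φ s) then f (pt s) • Phi φ s else 0)
      have h2 := W_le h1 s μ
      split_ifs with h
      · rw [max_eq_left h.le] at h2
        rw [map_smul, smul_eq_mul, mul_comm]
        exact mul_le_mul_of_nonneg_left h2 (hf _)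
      · rw [max_eq_right (not_lt.mp h)] at h2
        have h3 : W T φ s μ = 0 := le_antisymm h2 (W_nonneg _ _)
        rw [h3, zero_mul, map_zero]
  | succ n ih =>
      intro s
      show ∑ c' ∈ T s.length, V T φ pt n (c' :: s) f μ ≤
        μ (∑ c' ∈ T s.length, G T φ pt f μ n (c' :: s))
      rw [map_sum]
      exact Finset.sum_le_sum fun c' _ => ih _

theorem G_nonneg (h0 : ∀ n c x, 0 ≤ φ n c x) (μ : WeakDual ℝ C(K, ℝ)) (f : C(K, ℝ))
    (hf : ∀ x, 0 ≤ f x) (x : K) (n : ℕ) : ∀ s, 0 ≤ G T φ pt f μ n s x := by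
  induction n with
  | zero =>
      intro s
      show 0 ≤ (if 0 < μ (Phi φ s) then f (pt s) • Phi φ s else 0 : C(K, ℝ)) x
      split_ifs with h
      · exact mul_nonneg (hf _) (Phi_nonneg h0 _ _)
      · exact le_rfl
  | succ n ih =>
      intro s
      show 0 ≤ (∑ c' ∈ T s.length, G T φ pt f μ n (c' :: s)) x
      rw [ContinuousMap.sum_apply]
      exact Finset.sum_nonneg fun c _ => ih _

theorem G_le (h0 : ∀ n c x, 0 ≤ φ n c x) (h1 : ∀ n, ∑ c ∈ T n, φ n c = 1)
    (hpt : ∀ s, Phi φ s ≠ 0 → Phi φ s (pt s) ≠ 0)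
    (μ : WeakDual ℝ C(K, ℝ)) (f : C(K, ℝ)) (hf : ∀ x, 0 ≤ f x) (ω : ℝ) (hω : 0 ≤ ω) (N : ℕ)
    (hosc : ∀ s, N ≤ s.length → ∀ x y, Phi φ s x ≠ 0 → Phi φ s y ≠ 0 → |f x - f y| ≤ ω)
    (x : K) (n : ℕ) : ∀ s : List K, N ≤ s.length + n →
      G T φ pt f μ n s x ≤ (f x + ω) * Phi φ s x := by
  induction n with
  | zero =>
      intro s hs
      show (if 0 < μ (Phi φ s) then f (pt s) • Phi φ s else 0 : C(K, ℝ)) x ≤ _
      have h2 := Phi_nonneg h0 s x
      split_ifs with h
      · show f (pt s) * Phi φ s x ≤ _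
        rcases h2.eq_or_lt with h3 | h3
        · rw [← h3]; simp
        · refine mul_le_mul_of_nonneg_right ?_ h3.le
          have h4 : Phi φ s ≠ 0 := by
            intro h5
            rw [h5] at h3
            exact lt_irrefl _ h3
          have h5 := hosc s (by simpa using hs) x _ h3.ne' (hpt s h4)
          rw [abs_le] at h5
          linarith [h5.1]
      · exact mul_nonneg (add_nonneg (hf x) hω) h2
  | succ n ih =>
      intro s hs
      show (∑ c' ∈ T s.length, G T φ pt f μ n (c' :: s)) x ≤ _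
      rw [ContinuousMap.sum_apply]
      have h2 : Phi φ s x = ∑ c ∈ T s.length, Phi φ (c :: s) x := by
        rw [← ContinuousMap.sum_apply, sum_Phi h1]
      rw [h2, Finset.mul_sum]
      refine Finset.sum_le_sum fun c' _ => ih _ ?_
      rw [List.length_cons]
      omega

end tree

theorem tree {K : Type*} [TopologicalSpace K] [CompactSpace K]
    [TopologicalSpace.MetrizableSpace K] [Nonempty K] :
    ∃ ξ : WeakDual ℝ C(K, ℝ) → WeakDual ℝ C(K, ℝ), Continuous ξ ∧
      (∀ μ (f : C(K, ℝ)), 0 ≤ f → 0 ≤ ξ μ f) ∧ (∀ μ, ξ μ 1 = max (μ 1) 0) ∧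
      (∀ μ (f : C(K, ℝ)), 0 ≤ f → ∀ ε > 0, ∃ g : C(K, ℝ), 0 ≤ g ∧ g ≤ f ∧
        ξ μ f ≤ μ g + ε) := by
  classical
  letI : MetricSpace K := TopologicalSpace.metrizableSpaceMetric K
  obtain ⟨x0⟩ := ‹Nonempty K›
  have hex := fun n : ℕ => exists_pou (K := K) (1 / ((n : ℝ) + 1)) (by positivity)
  choose T φ h0 h1 h2 using hex
  have hptx : ∀ s : List K, ∃ p : K, Phi φ s ≠ 0 → Phi φ s p ≠ 0 := by
    intro s
    by_cases h : Phi φ s = 0
    · exact ⟨x0, fun h' => absurd h h'⟩
    · have : ∃ p, Phi φ s p ≠ 0 := by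
        by_contra hcon
        push Not at hcon
        exact h (ContinuousMap.ext hcon)
      obtain ⟨p, hp⟩ := this
      exact ⟨p, fun _ => hp⟩
  choose pt hpt using hptx
  -- small oscillation on long words
  have hosc : ∀ (f : C(K, ℝ)) (ω : ℝ), 0 < ω → ∃ N : ℕ, ∀ s : List K, N ≤ s.length →
      ∀ x y, Phi φ s x ≠ 0 → Phi φ s y ≠ 0 → |f x - f y| ≤ ω := by
    intro f ω hω
    have huc : UniformContinuous f := CompactSpace.uniformContinuous_of_continuous f.continuous
    obtain ⟨δ, hδ, hd⟩ := Metric.uniformContinuous_iff.mp huc ω hω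
    obtain ⟨n, hn⟩ := exists_nat_one_div_lt (half_pos hδ)
    refine ⟨n + 1, fun s hs x y hx hy => ?_⟩
    cases s with
    | nil => simp at hs
    | cons c s =>
        rw [List.length_cons] at hs
        have hx' : φ s.length c x ≠ 0 := fun h => hx (by
          show Phi φ s x * _ = 0; rw [h, mul_zero])
        have hy' : φ s.length c y ≠ 0 := fun h => hy (by
          show Phi φ s y * _ = 0; rw [h, mul_zero])
        have h3 := h2 _ _ _ hx'
        have h4 := h2 _ _ _ hy'
        have h5 : 1 / ((s.length : ℝ) + 1) ≤ 1 / ((n : ℝ) + 1) := by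
          have : (n : ℝ) ≤ s.length := by exact_mod_cast (by omega : n ≤ s.length)
          exact one_div_le_one_div_of_le (by positivity) (by linarith)
        have h6 : dist x y < δ := by
          have := dist_triangle_right x y c
          linarith
        have h7 := hd h6
        rw [Real.dist_eq] at h7
        exact h7.le
  have hlen : ∀ n : ℕ, (([] : List K).length + n) = n := by intro n; simp
  -- the sequence is Cauchy
  have hcau : ∀ (f : C(K, ℝ)) (ω : ℝ), 0 < ω → ∃ N : ℕ, ∀ n, N ≤ n → ∀ k, ∀ μ,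
      |V T φ pt (n + k) [] f μ - V T φ pt n [] f μ| ≤ ω * W T φ [] μ := by
    intro f ω hω
    obtain ⟨N, hN⟩ := hosc f ω hω
    exact ⟨N, fun n hn k μ => V_cauchy h0 h1 hpt μ f ω N hN k n [] (by rw [hlen]; exact hn)⟩
  have hlim : ∀ (μ : WeakDual ℝ C(K, ℝ)) (f : C(K, ℝ)), ∃ l : ℝ,
      Tendsto (fun n => V T φ pt n [] f μ) atTop (𝓝 l) := by
    intro μ f
    apply cauchySeq_tendsto_of_complete
    rw [Metric.cauchySeq_iff']
    intro ε hε
    have hW := W_nonneg (T := T) (φ := φ) [] μ
    obtain ⟨N, hN⟩ := hcau f (ε / (W T φ [] μ + 1)) (by positivity)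
    refine ⟨N, fun n hn => ?_⟩
    obtain ⟨k, rfl⟩ := Nat.exists_eq_add_of_le hn
    rw [Real.dist_eq]
    have h3 := hN N le_rfl k μ
    refine lt_of_le_of_lt h3 ?_
    rw [div_mul_eq_mul_div, div_lt_iff₀ (by positivity)]
    nlinarith
  choose l hl using hlim
  have hlb : ∀ (f : C(K, ℝ)) (ω : ℝ), 0 < ω → ∃ N : ℕ, ∀ n, N ≤ n → ∀ μ,
      |l μ f - V T φ pt n [] f μ| ≤ ω * W T φ [] μ := by
    intro f ω hω
    obtain ⟨N, hN⟩ := hcau f ω hω
    refine ⟨N, fun n hn μ => ?_⟩
    have h3 : Tendsto (fun k => |V T φ pt (n + k) [] f μ - V T φ pt n [] f μ|) atTop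
        (𝓝 |l μ f - V T φ pt n [] f μ|) := by
      refine (Tendsto.sub_const ?_ _).abs
      have := (tendsto_add_atTop_iff_nat n).mpr (hl μ f)
      simpa [add_comm] using this
    exact le_of_tendsto h3 (Eventually.of_forall fun k => hN n hn k μ)
  have hl0 : ∀ μ (f : C(K, ℝ)), (∀ x, 0 ≤ f x) → 0 ≤ l μ f := by
    intro μ f hf
    exact ge_of_tendsto (hl μ f) (Eventually.of_forall fun n => V_nonneg n μ f hf [])
  have hl1 : ∀ μ, l μ 1 = max (μ 1) 0 := by
    intro μ
    refine tendsto_nhds_unique (hl μ 1) ?_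
    refine tendsto_const_nhds.congr fun n => ?_
    rw [V_one h1]
    rfl
  have hladd : ∀ μ f g, l μ (f + g) = l μ f + l μ g := by
    intro μ f g
    refine tendsto_nhds_unique (hl μ (f + g)) ?_
    refine ((hl μ f).add (hl μ g)).congr fun n => ?_
    rw [V_add]
  have hlsmul : ∀ μ (a : ℝ) f, l μ (a • f) = a * l μ f := by
    intro μ a f
    refine tendsto_nhds_unique (hl μ (a • f)) ?_
    refine ((hl μ f).const_mul a).congr fun n => ?_
    rw [V_smul]
  have hlabs : ∀ μ (f : C(K, ℝ)), |l μ f| ≤ max (μ 1) 0 * ‖f‖ := by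
    intro μ f
    have e1 : 0 ≤ l μ (‖f‖ • (1 : C(K, ℝ)) + (-1 : ℝ) • f) := by
      apply hl0
      intro x
      have := f.norm_coe_le_norm x
      rw [Real.norm_eq_abs, abs_le] at this
      show 0 ≤ ‖f‖ * 1 + (-1) * f x
      linarith [this.2]
    have e2 : 0 ≤ l μ (‖f‖ • (1 : C(K, ℝ)) + f) := by
      apply hl0
      intro x
      have := f.norm_coe_le_norm x
      rw [Real.norm_eq_abs, abs_le] at this
      show 0 ≤ ‖f‖ * 1 + f x
      linarith [this.1]
    rw [hladd, hlsmul, hl1] at e1 e2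
    rw [hlsmul] at e1
    rw [abs_le]
    constructor <;> linarith
  let ξ : WeakDual ℝ C(K, ℝ) → WeakDual ℝ C(K, ℝ) := fun μ =>
    StrongDual.toWeakDual (LinearMap.mkContinuous
      { toFun := l μ
        map_add' := hladd μ
        map_smul' := fun a f => by
          show l μ (a • f) = a • l μ f
          rw [hlsmul, smul_eq_mul] } (max (μ 1) 0) (fun f => by
        show ‖l μ f‖ ≤ _
        rw [Real.norm_eq_abs]
        exact hlabs μ f))
  have hξ : ∀ μ f, ξ μ f = l μ f := fun μ f => rfl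
  refine ⟨ξ, ?_, ?_, ?_, ?_⟩
  · -- continuity
    refine WeakDual.continuous_of_continuous_eval fun f => ?_
    show Continuous fun μ => l μ f
    rw [continuous_iff_continuousAt]
    intro μ0
    rw [Metric.continuousAt_iff'] 
    intro ε hε
    have hWc : Continuous (W T φ ([] : List K)) := W_cont h1 [] trivial
    have hW0 := W_nonneg (T := T) (φ := φ) [] μ0
    set M : ℝ := W T φ [] μ0 + 1 with hM
    obtain ⟨N, hN⟩ := hlb f (ε / (3 * M)) (by positivity)
    have e1 : ∀ᶠ μ in 𝓝 μ0, W T φ [] μ < M :=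
      hWc.continuousAt.eventually (gt_mem_nhds (by rw [hM]; linarith))
    have e2 : ∀ᶠ μ in 𝓝 μ0, dist (V T φ pt N [] f μ) (V T φ pt N [] f μ0) < ε / 3 := by
      have := (V_cont (pt := pt) h1 f N [] trivial).continuousAt (x := μ0)
      exact (Metric.continuousAt_iff'.mp this) _ (by positivity)
    filter_upwards [e1, e2] with μ hμ1 hμ2
    rw [Real.dist_eq] at hμ2 ⊢
    have h3 := hN N le_rfl μ
    have h4 := hN N le_rfl μ0
    have hMpos : 0 < M := by positivity
    have h5 : ε / (3 * M) * W T φ [] μ < ε / 3 := by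
      have : ε / (3 * M) * M = ε / 3 := by field_simp
      rw [← this]
      exact mul_lt_mul_of_pos_left hμ1 (by positivity)
    have h6 : ε / (3 * M) * W T φ [] μ0 < ε / 3 := by
      have : ε / (3 * M) * M = ε / 3 := by field_simp
      rw [← this]
      exact mul_lt_mul_of_pos_left (by rw [hM]; linarith) (by positivity)
    rw [abs_lt] at hμ2 ⊢
    rw [abs_le] at h3 h4
    constructor <;> linarith [h3.1, h3.2, h4.1, h4.2, hμ2.1, hμ2.2]
  · intro μ f hf
    exact hl0 μ f fun x => hf x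
  · intro μ
    exact hl1 μ
  · intro μ f hf ε hε
    have hf' : ∀ x, 0 ≤ f x := fun x => hf x
    have hWn := W_nonneg (T := T) (φ := φ) [] μ
    set C : ℝ := ‖WeakDual.toStrongDual μ‖ + W T φ [] μ + 1 with hC
    have hCpos : 0 < C := by positivity
    set ω : ℝ := ε / C with hω
    have hω0 : 0 < ω := by positivity
    obtain ⟨N, hN⟩ := hosc f ω hω0
    obtain ⟨N', hN'⟩ := hlb f ω hω0
    set n := max N N' with hn
    have hG0 : ∀ x, 0 ≤ G T φ pt f μ n [] x := fun x => G_nonneg h0 μ f hf' x n []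
    have hG1 : ∀ x, G T φ pt f μ n [] x ≤ f x + ω := by
      intro x
      have := G_le h0 h1 hpt μ f hf' ω hω0.le N hN x n [] (by rw [hlen]; exact le_max_left _ _)
      have h3 : Phi φ ([] : List K) x = 1 := rfl
      rwa [h3, mul_one] at this
    refine ⟨G T φ pt f μ n [] ⊓ f, ?_, inf_le_right, ?_⟩
    · intro x
      exact le_inf (hG0 x) (hf' x)
    · have e1 : l μ f ≤ V T φ pt n [] f μ + ω * W T φ [] μ := by
        have := hN' n (le_max_right _ _) μ
        rw [abs_le] at this
        linarith [this.2]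
      have e2 : V T φ pt n [] f μ ≤ μ (G T φ pt f μ n []) := V_le_G h1 μ f hf' n []
      have e3 : μ (G T φ pt f μ n []) = μ (G T φ pt f μ n [] ⊓ f) +
          μ (G T φ pt f μ n [] - G T φ pt f μ n [] ⊓ f) := by
        rw [← map_add]; congr 1; abel
      have e4 : ‖G T φ pt f μ n [] - G T φ pt f μ n [] ⊓ f‖ ≤ ω := by
        rw [ContinuousMap.norm_le _ hω0.le]
        intro x
        show ‖G T φ pt f μ n [] x - min (G T φ pt f μ n [] x) (f x)‖ ≤ ω
        rw [Real.norm_eq_abs, abs_le]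
        have h3 := hG1 x
        rcases le_total (G T φ pt f μ n [] x) (f x) with h4 | h4
        · rw [min_eq_left h4]; constructor <;> linarith
        · rw [min_eq_right h4]; constructor <;> linarith
      have e5 : μ (G T φ pt f μ n [] - G T φ pt f μ n [] ⊓ f) ≤
          ‖WeakDual.toStrongDual μ‖ * ω := by
        have h3 := (WeakDual.toStrongDual μ).le_opNorm (G T φ pt f μ n [] - G T φ pt f μ n [] ⊓ f)
        rw [Real.norm_eq_abs] at h3
        have h4 := (le_abs_self _).trans h3
        refine h4.trans (mul_le_mul_of_nonneg_left e4 (norm_nonneg _))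
      have e6 : ‖WeakDual.toStrongDual μ‖ * ω + ω * W T φ [] μ ≤ ε := by
        have : ε = C * ω := by rw [hω]; field_simp
        rw [this, hC]
        nlinarith
      rw [hξ]
      linarith

end Pool.Agent.R165.Comp
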